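import Pool.Agent.H21R2.HDefs

/-!
Definitions for the results on halo products: functors from sets with injections to groups,
halo products, sofic actions.
-/

namespace Pool.Agent.TH92.Halo

open Pool.Agent.H21R2

universe u v

/-- A *halo*: a functor `L` from the category of sets and injections to the category of groups
which maps injections to injective homomorphisms and such that every element of `L X` comes
from a finite subset of `X`. -/
structure Halo where
  /-- the underlying type of the group attached to a set -/
  L : Type u → Type u
  /-- the group structure -/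
  grp : ∀ X : Type u, Group (L X)
  /-- the homomorphism attached to an injection -/
  map : ∀ {X Y : Type u}, (X ↪ Y) → (L X →* L Y)
  map_refl : ∀ {X : Type u} (l : L X), map (Function.Embedding.refl X) l = l
  map_trans : ∀ {X Y Z : Type u} (f : X ↪ Y) (g : Y ↪ Z) (l : L X),
    map (f.trans g) l = map g (map f l)
  map_injective : ∀ {X Y : Type u} (f : X ↪ Y), Function.Injective (map f)
  finitary : ∀ {X : Type u} (l : L X), ∃ (F : Finset X) (l' : L {x // x ∈ F}),
    map (Function.Embedding.subtype fun x => x ∈ F) l' = l

attribute [instance] Halo.grp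

/-- The action of a group `G` acting on `X` on the group `L X` by automorphisms. -/
def Halo.act (H : Halo.{u}) (G : Type v) [Group G] (X : Type u) [MulAction G X] :
    G →* MulAut (H.L X) where
  toFun g :=
    { toFun := H.map (MulAction.toPerm g).toEmbedding
      invFun := H.map (MulAction.toPerm g⁻¹).toEmbedding
      left_inv := fun l => by
        rw [← H.map_trans]
        convert H.map_refl l using 3
        ext x; simp
      right_inv := fun l => by
        rw [← H.map_trans]
        convert H.map_refl l using 3
        ext x; simp
      map_mul' := map_mul _ }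
  map_one' := by
    ext l
    show H.map _ l = l
    convert H.map_refl l using 3
    ext x; simp
  map_mul' g h := by
    ext l
    show H.map _ l = H.map _ (H.map _ l)
    rw [← H.map_trans]
    congr 2
    ext x; simp [mul_smul]

/-- The halo product `L X ⋊ G`. -/
abbrev Halo.Product (H : Halo.{u}) (G : Type v) [Group G] (X : Type u) [MulAction G X] :=
  H.L X ⋊[H.act G X] G

/-- The action of `G` on `X` is *sofic*: for all finite `A ⊆ G`, `E ⊆ X` and every `ε > 0` there
are an almost multiplicative map `σ : G → Sym(n)`, a set `S` of at least `(1 - ε) n` points and a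
map `π s : X → {1, …, m}` for every point `s`, injective on `E` if `s ∈ S`, such that
`π (σ g s) (g x) = π s x` whenever `g ∈ A`, `x, g x ∈ E` and `s, σ g s ∈ S`. -/
def IsSoficAction (G : Type v) [Group G] (X : Type u) [MulAction G X] : Prop :=
  ∀ (A : Finset G) (E : Finset X) (ε : ℝ), 0 < ε →
    ∃ (n m : ℕ) (σ : G → Equiv.Perm (Fin n)) (S : Finset (Fin n)) (π : Fin n → X → Fin m),
      1 ≤ n ∧ σ 1 = 1 ∧
      (∀ a ∈ A, ∀ b ∈ A, hamm (σ (a * b)) (σ a * σ b) < ε) ∧
      (1 - ε) * n ≤ S.card ∧
      (∀ s ∈ S, Set.InjOn (π s) E) ∧
      ∀ s ∈ S, ∀ g ∈ A, σ g s ∈ S → ∀ x ∈ E, g • x ∈ E → π (σ g s) (g • x) = π s x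

end Pool.Agent.TH92.Halo
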