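import Pool.Agent.TH92.Halo.SoficMain

/-!
The action of a sofic group on itself by left translations is sofic.
-/

namespace Pool.Agent.TH92.Halo

open Pool.Agent.H21R2 Finset

universe u v

theorem isSoficAction_self (G : Type u) [Group G] (hG : IsSofic G) : IsSoficAction G G := by
  classical
  intro A E ε hε
  set D : Finset G := insert 1 (A ∪ (A ×ˢ A).image (fun p => p.1 * p.2) ∪
    E.image (fun x => x⁻¹) ∪ (E ×ˢ A).image (fun p => p.1⁻¹ * p.2⁻¹) ∪
    (E ×ˢ E).image (fun p => p.1⁻¹ * p.2)) with hD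
  have hDA : ∀ a ∈ A, a ∈ D := by
    intro a ha; simp only [hD, mem_insert, mem_union]; tauto
  have hDAA : ∀ a ∈ A, ∀ b ∈ A, a * b ∈ D := by
    intro a ha b hb
    have : a * b ∈ (A ×ˢ A).image (fun p => p.1 * p.2) :=
      mem_image.2 ⟨(a, b), mem_product.2 ⟨ha, hb⟩, rfl⟩
    simp only [hD, mem_insert, mem_union]; tauto
  have hDE : ∀ x ∈ E, x⁻¹ ∈ D := by
    intro x hx
    have : x⁻¹ ∈ E.image (fun x => x⁻¹) := mem_image_of_mem _ hx
    simp only [hD, mem_insert, mem_union]; tauto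
  have hDEA : ∀ x ∈ E, ∀ g ∈ A, x⁻¹ * g⁻¹ ∈ D := by
    intro x hx g hg
    have : x⁻¹ * g⁻¹ ∈ (E ×ˢ A).image (fun p => p.1⁻¹ * p.2⁻¹) :=
      mem_image.2 ⟨(x, g), mem_product.2 ⟨hx, hg⟩, rfl⟩
    simp only [hD, mem_insert, mem_union]; tauto
  have hDEE : ∀ x ∈ E, ∀ y ∈ E, x⁻¹ * y ∈ D := by
    intro x hx y hy
    have : x⁻¹ * y ∈ (E ×ˢ E).image (fun p => p.1⁻¹ * p.2) :=
      mem_image.2 ⟨(x, y), mem_product.2 ⟨hx, hy⟩, rfl⟩
    simp only [hD, mem_insert, mem_union]; tauto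
  set K : ℝ := (E.card : ℝ) * A.card + 2 * (E.card * E.card) + 1 with hK
  have hK0 : 0 < K := by positivity
  set δ : ℝ := ε / K with hδ
  have hδ0 : 0 < δ := by positivity
  have hδε : δ ≤ ε := by
    rw [hδ, div_le_iff₀ hK0]
    have h1 : (1 : ℝ) ≤ K := by
      rw [hK]
      have : (0 : ℝ) ≤ (E.card : ℝ) * A.card + 2 * (E.card * E.card) := by positivity
      linarith
    nlinarith
  obtain ⟨n, hn, φ, hφ1, hφ, hφn⟩ := hG D (mem_insert_self _ _) δ hδ0
  have hn0 : (0 : ℝ) < n := by exact_mod_cast hn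
  let U₁ : G × G → Finset (Fin n) := fun p =>
    univ.filter fun s => φ (p.1⁻¹) s ≠ φ (p.1⁻¹ * p.2⁻¹) (φ p.2 s)
  let U₂ : G × G → Finset (Fin n) := fun p =>
    if p.1 = p.2 then ∅ else univ.filter fun s => φ (p.1⁻¹) s = φ (p.2⁻¹) s
  have hU₁ : ∀ p ∈ E ×ˢ A, ((U₁ p).card : ℝ) ≤ δ * n := by
    rintro ⟨x, g⟩ hp
    rw [mem_product] at hp
    have h := card_le_of_hamm hn _ _ δ (hφ _ (hDEA x hp.1 g hp.2) g (hDA g hp.2)
      (by rw [inv_mul_cancel_right]; exact hDE x hp.1))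
    rw [inv_mul_cancel_right] at h
    exact h
  have hU₂ : ∀ p ∈ E ×ˢ E, ((U₂ p).card : ℝ) ≤ 2 * (δ * n) := by
    rintro ⟨x, y⟩ hp
    rw [mem_product] at hp
    by_cases hxy : x = y
    · simp only [U₂, hxy, if_true, card_empty, Nat.cast_zero]
      positivity
    · simp only [U₂, hxy, if_false]
      have hne : x⁻¹ * y ≠ 1 := by
        intro h
        apply hxy
        rw [inv_mul_eq_one] at h
        exact h
      have h1 := card_le_of_hamm hn _ _ δ (hφ _ (hDEE x hp.1 y hp.2) _ (hDE y hp.2)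
        (by rw [mul_assoc, mul_inv_cancel, mul_one]; exact hDE x hp.1))
      rw [mul_assoc, mul_inv_cancel, mul_one] at h1
      have h2 := le_card_of_hamm hn _ δ (hφn _ (hDEE x hp.1 y hp.2) hne)
      -- points fixed by `φ (x⁻¹ y)`
      have h3 : ((univ.filter fun t => φ (x⁻¹ * y) t = t).card : ℝ) ≤ δ * n := by
        have h4 := card_filter_add_card_filter_not (s := (univ : Finset (Fin n)))
          (fun t => φ (x⁻¹ * y) t = t)
        rw [card_univ, Fintype.card_fin] at h4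
        have h5 : ((univ.filter fun t => φ (x⁻¹ * y) t = t).card : ℝ) +
          ((univ.filter fun t => ¬ φ (x⁻¹ * y) t = t).card : ℝ) = n := by exact_mod_cast h4
        have h6 : ((univ.filter fun t => ¬ φ (x⁻¹ * y) t = t).card : ℝ) =
          ((univ.filter fun t => φ (x⁻¹ * y) t ≠ t).card : ℝ) := rfl
        linarith
      have h7 : (univ.filter fun s => φ x⁻¹ s = φ y⁻¹ s) ⊆
          (univ.filter fun s => φ x⁻¹ s ≠ (φ (x⁻¹ * y) * φ y⁻¹) s) ∪
          (univ.filter fun t => φ (x⁻¹ * y) t = t).image (φ y⁻¹).symm := by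
        intro s hs
        rw [mem_filter] at hs
        rw [mem_union, mem_filter, mem_image]
        by_cases h : φ x⁻¹ s = (φ (x⁻¹ * y) * φ y⁻¹) s
        · refine Or.inr ⟨φ y⁻¹ s, mem_filter.2 ⟨mem_univ _, ?_⟩, Equiv.symm_apply_apply _ _⟩
          rw [← hs.2]
          conv_lhs => rw [hs.2]
          exact h.symm
        · exact Or.inl ⟨mem_univ _, h⟩
      have h8 := (card_le_card h7).trans ((card_union_le _ _).trans
        (Nat.add_le_add_left card_image_le _))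
      have h9 : ((univ.filter fun s => φ x⁻¹ s = φ y⁻¹ s).card : ℝ) ≤
          ((univ.filter fun s => φ x⁻¹ s ≠ (φ (x⁻¹ * y) * φ y⁻¹) s).card : ℝ) +
          ((univ.filter fun t => φ (x⁻¹ * y) t = t).card : ℝ) := by exact_mod_cast h8
      linarith
  set Bad : Finset (Fin n) := (E ×ˢ A).biUnion U₁ ∪ (E ×ˢ E).biUnion U₂ with hBad
  have hBadc : (Bad.card : ℝ) ≤ ε * n := by
    have h1 : ((((E ×ˢ A).biUnion U₁).card : ℕ) : ℝ) ≤ ((E ×ˢ A).card : ℝ) * (δ * n) := by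
      have h0 : ((((E ×ˢ A).biUnion U₁).card : ℕ) : ℝ) ≤ ((∑ p ∈ E ×ˢ A, (U₁ p).card : ℕ) : ℝ) :=
        Nat.cast_le.2 card_biUnion_le
      refine h0.trans ?_
      rw [Nat.cast_sum, ← nsmul_eq_mul, ← sum_const]
      exact sum_le_sum hU₁
    have h2 : ((((E ×ˢ E).biUnion U₂).card : ℕ) : ℝ) ≤ ((E ×ˢ E).card : ℝ) * (2 * (δ * n)) := by
      have h0 : ((((E ×ˢ E).biUnion U₂).card : ℕ) : ℝ) ≤ ((∑ p ∈ E ×ˢ E, (U₂ p).card : ℕ) : ℝ) :=
        Nat.cast_le.2 card_biUnion_le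
      refine h0.trans ?_
      rw [Nat.cast_sum, ← nsmul_eq_mul, ← sum_const]
      exact sum_le_sum hU₂
    have h3 : (Bad.card : ℝ) ≤ (((E ×ˢ A).biUnion U₁).card : ℝ) +
        (((E ×ˢ E).biUnion U₂).card : ℝ) := by exact_mod_cast card_union_le _ _
    rw [card_product, Nat.cast_mul] at h1 h2
    have h4 : ε = δ * K := by rw [hδ]; field_simp
    rw [h4, hK]
    nlinarith [mul_pos hδ0 hn0]
  refine ⟨n, n, φ, univ \ Bad, fun s x => φ x⁻¹ s, hn, hφ1, ?_, ?_, ?_, ?_⟩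
  · intro a ha b hb
    exact (hφ a (hDA a ha) b (hDA b hb) (hDAA a ha b hb)).trans_le hδε
  · rw [card_sdiff_of_subset (subset_univ _), card_univ, Fintype.card_fin,
      Nat.cast_sub (by simpa using card_le_univ Bad)]
    linarith
  · intro s hs x hx y hy hxy
    rw [mem_sdiff] at hs
    by_contra hne
    apply hs.2
    rw [hBad, mem_union]
    refine Or.inr (mem_biUnion.2 ⟨(x, y), mem_product.2 ⟨hx, hy⟩, ?_⟩)
    simp only [U₂, hne, if_false]
    exact mem_filter.2 ⟨mem_univ _, hxy⟩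
  · intro s hs g hg _ x hx _
    rw [mem_sdiff] at hs
    show φ (g • x)⁻¹ (φ g s) = φ x⁻¹ s
    by_contra hne
    apply hs.2
    rw [hBad, mem_union]
    refine Or.inl (mem_biUnion.2 ⟨(x, g), mem_product.2 ⟨hx, hg⟩, mem_filter.2 ⟨mem_univ _, ?_⟩⟩)
    intro h
    apply hne
    rw [smul_eq_mul, mul_inv_rev]
    exact h.symm

end Pool.Agent.TH92.Halo
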