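import Pool.Agent.TH92.Halo.HyperMain
import Pool.Agent.TH92.Halo.SelfAction

/-!
Transfer of soficity along injective homomorphisms, finite groups, and the halo of finitely
supported permutations.
-/

namespace Pool.Agent.TH92.Halo

open Pool.Agent.H21R2 Finset

universe u v

theorem isSofic_of_injective {G K : Type*} [Group G] [Group K] (f : G →* K)
    (hf : Function.Injective f) (hK : IsSofic K) : IsSofic G := by
  classical
  intro A h1 ε hε
  obtain ⟨n, hn, φ, p1, p2, p3⟩ := hK (A.image f) (mem_image.2 ⟨1, h1, map_one f⟩) ε hε
  refine ⟨n, hn, fun g => φ (f g), by show φ (f 1) = 1; rw [map_one, p1], ?_, ?_⟩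
  · intro a ha b hb hab
    show hamm (φ (f (a * b))) (φ (f a) * φ (f b)) < ε
    rw [map_mul]
    exact p2 _ (mem_image_of_mem _ ha) _ (mem_image_of_mem _ hb)
      (by rw [← map_mul]; exact mem_image_of_mem _ hab)
  · intro a ha ha1
    exact p3 _ (mem_image_of_mem _ ha) fun h => ha1 (hf (by rw [h, map_one]))

theorem isSofic_of_finite (G : Type*) [Group G] [Finite G] : IsSofic G := by
  classical
  have := Fintype.ofFinite G
  intro A _ ε hε
  let e := Fintype.equivFin G
  have hpos : 1 ≤ Fintype.card G := Fintype.card_pos
  have hpos' : (0 : ℝ) < Fintype.card G := by exact_mod_cast hpos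
  let φ : G →* Equiv.Perm (Fin (Fintype.card G)) :=
    (e.permCongrHom.toMonoidHom).comp (MulAction.toPermHom G G)
  refine ⟨Fintype.card G, hpos, φ, map_one _, ?_, ?_⟩
  · intro a _ b _ _
    rw [map_mul]
    simpa [hamm] using hε
  · intro a _ ha
    have h1 : (univ.filter fun i => φ a i ≠ (1 : Equiv.Perm (Fin (Fintype.card G))) i) =
        univ := by
      rw [filter_eq_self]
      intro i _ h
      apply ha
      have h2 : e (a * e.symm i) = i := h
      have h3 : a * e.symm i = e.symm i := by
        rw [← Equiv.symm_apply_apply e (a * e.symm i), h2]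
      simpa using h3
    unfold hamm
    rw [h1, card_univ, Fintype.card_fin, div_self hpos'.ne']
    linarith

/-- **Halo products over sofic actions**, with the converse. -/
theorem sofic_iff (H : Halo.{u}) {G : Type v} [Group G] {X : Type u} [MulAction G X] [Infinite X]
    (hX : IsSoficAction G X) :
    IsSofic (H.Product G X) ↔ IsSofic G ∧ ∀ (F : Type u) [Finite F], IsSofic (H.L F) := by
  constructor
  · intro h
    refine ⟨isSofic_of_injective SemidirectProduct.inr SemidirectProduct.inr_injective h, ?_⟩
    intro F _
    let f : F ↪ X := (Finite.equivFin F).toEmbedding.trans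
      (Fin.valEmbedding.trans (Infinite.natEmbedding X))
    exact isSofic_of_injective (SemidirectProduct.inl.comp (H.map f))
      (SemidirectProduct.inl_injective.comp (H.map_injective f)) h
  · rintro ⟨h1, h2⟩
    exact sofic_main H h1 hX h2

/-- the group of all finitely supported permutations of `X` -/
def fsym (X : Type u) : Subgroup (Equiv.Perm X) where
  carrier := {π | {x | π x ≠ x}.Finite}
  mul_mem' := by
    intro σ τ hσ hτ
    refine (hσ.union hτ).subset fun x hx => ?_
    by_contra h
    rw [Set.mem_union, not_or] at h
    have h1 : τ x = x := not_not.1 h.2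
    have h2 : σ x = x := not_not.1 h.1
    exact hx (by rw [Equiv.Perm.mul_apply, h1, h2])
  one_mem' := by simp
  inv_mem' := by
    intro σ hσ
    refine hσ.subset fun x hx => ?_
    intro h
    apply hx
    rw [Equiv.Perm.inv_eq_iff_eq]
    exact h.symm

theorem viaEmbedding_mem {X Y : Type u} (f : X ↪ Y) (π : Equiv.Perm X) (h : π ∈ fsym X) :
    π.viaEmbedding f ∈ fsym Y := by
  refine (Set.Finite.image f h).subset fun y hy => ?_
  by_cases h1 : y ∈ Set.range f
  · obtain ⟨x, rfl⟩ := h1
    refine ⟨x, ?_, rfl⟩
    intro h2
    apply hy
    rw [Equiv.Perm.viaEmbedding_apply, h2]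
  · exact absurd (Equiv.Perm.viaEmbedding_apply_of_notMem π f y h1) hy

/-- the homomorphism of groups of finitely supported permutations given by an injection -/
noncomputable def fsymMap {X Y : Type u} (f : X ↪ Y) : fsym X →* fsym Y where
  toFun π := ⟨π.1.viaEmbedding f, viaEmbedding_mem f π.1 π.2⟩
  map_one' := Subtype.ext (map_one (Equiv.Perm.viaEmbeddingHom f))
  map_mul' π π' := Subtype.ext (map_mul (Equiv.Perm.viaEmbeddingHom f) π.1 π'.1)

theorem fsymMap_injective {X Y : Type u} (f : X ↪ Y) : Function.Injective (fsymMap f) := by
  intro a b h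
  apply Subtype.ext
  exact Equiv.Perm.viaEmbeddingHom_injective f (congrArg Subtype.val h)

/-- The halo of finitely supported permutations. -/
noncomputable abbrev fsymHalo : Halo.{u} where
  L X := fsym X
  grp _ := inferInstance
  map f := fsymMap f
  map_refl := by
    intro X l
    apply Subtype.ext
    ext x
    exact Equiv.Perm.viaEmbedding_apply l.1 (Function.Embedding.refl X) x
  map_trans := by
    intro X Y Z f g l
    apply Subtype.ext
    ext z
    show l.1.viaEmbedding (f.trans g) z = (l.1.viaEmbedding f).viaEmbedding g z
    by_cases h1 : z ∈ Set.range g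
    · obtain ⟨y, rfl⟩ := h1
      rw [Equiv.Perm.viaEmbedding_apply]
      by_cases h2 : y ∈ Set.range f
      · obtain ⟨x, rfl⟩ := h2
        rw [Equiv.Perm.viaEmbedding_apply]
        exact Equiv.Perm.viaEmbedding_apply l.1 (f.trans g) x
      · rw [Equiv.Perm.viaEmbedding_apply_of_notMem _ f y h2]
        apply Equiv.Perm.viaEmbedding_apply_of_notMem
        rintro ⟨x, hx⟩
        exact h2 ⟨x, g.injective hx⟩
    · rw [Equiv.Perm.viaEmbedding_apply_of_notMem _ g z h1]
      apply Equiv.Perm.viaEmbedding_apply_of_notMem
      rintro ⟨x, hx⟩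
      exact h1 ⟨f x, hx⟩
  map_injective f := fsymMap_injective f
  finitary := by
    intro X l
    classical
    have hfin : {x | l.1 x ≠ x}.Finite := l.2
    refine ⟨hfin.toFinset, ?_⟩
    have hl : ∀ x, x ∈ hfin.toFinset ↔ l.1 x ∈ hfin.toFinset := by
      intro x
      rw [Set.Finite.mem_toFinset, Set.Finite.mem_toFinset]
      show l.1 x ≠ x ↔ l.1 (l.1 x) ≠ l.1 x
      rw [ne_eq, ne_eq, l.1.injective.eq_iff]
    refine ⟨⟨l.1.subtypePerm (fun x => (hl x).symm), ?_⟩, ?_⟩
    · exact Set.toFinite _
    · apply Subtype.ext
      ext x
      show (l.1.subtypePerm (fun x => (hl x).symm)).viaEmbedding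
        (Function.Embedding.subtype fun x => x ∈ hfin.toFinset) x = l.1 x
      by_cases h : x ∈ hfin.toFinset
      · exact Equiv.Perm.viaEmbedding_apply (l.1.subtypePerm (fun x => (hl x).symm))
          (Function.Embedding.subtype fun x => x ∈ hfin.toFinset) ⟨x, h⟩
      · rw [Equiv.Perm.viaEmbedding_apply_of_notMem]
        · rw [Set.Finite.mem_toFinset] at h
          exact (not_not.1 h).symm
        · rintro ⟨y, rfl⟩
          exact h y.2

/-- The group of all permutations of the group `G` which agree with a left translation outside a
finite set. -/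
def nearTranslations (G : Type u) [Group G] : Subgroup (Equiv.Perm G) where
  carrier := {π | ∃ g : G, {x | π x ≠ g * x}.Finite}
  mul_mem' := by
    rintro σ τ ⟨g, hg⟩ ⟨h, hh⟩
    refine ⟨g * h, (hh.union (hg.preimage (f := fun x => h * x)
      (mul_right_injective h).injOn)).subset fun x hx => ?_⟩
    by_contra hc
    rw [Set.mem_union, not_or] at hc
    have h1 : τ x = h * x := not_not.1 hc.1
    have h2 : σ (h * x) = g * (h * x) := not_not.1 hc.2
    exact hx (by rw [Equiv.Perm.mul_apply, h1, h2, mul_assoc])
  one_mem' := ⟨1, by simp⟩
  inv_mem' := by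
    rintro σ ⟨g, hg⟩
    refine ⟨g⁻¹, (hg.preimage (f := fun x => g⁻¹ * x)
      (mul_right_injective g⁻¹).injOn).subset fun x hx => ?_⟩
    intro h
    apply hx
    rw [Equiv.Perm.inv_eq_iff_eq, h, mul_inv_cancel_left]

/-- For infinite sofic `G` the group of near translations is the halo product of the finitely
supported permutations; it is sofic if `G` is sofic. -/
theorem nearTranslations_sofic (G : Type u) [Group G] (hG : IsSofic G) :
    IsSofic (nearTranslations G) := by
  classical
  rcases finite_or_infinite G with hfin | hinf
  · exact isSofic_of_finite _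
  · have hP : IsSofic (fsymHalo.{u}.Product G G) :=
      sofic_main fsymHalo hG (isSoficAction_self G hG) (fun F _ => by
        have : Finite (fsymHalo.{u}.L F) := inferInstanceAs (Finite (fsym F))
        exact isSofic_of_finite _)
    -- the homomorphism from the halo product
    let Φ : fsymHalo.{u}.Product G G →* Equiv.Perm G :=
      SemidirectProduct.lift (show fsymHalo.{u}.L G →* Equiv.Perm G from (fsym G).subtype)
        (MulAction.toPermHom G G) (by
        intro g
        ext π x
        show (fsymMap _ π).1 x = g * π.1 (g⁻¹ * x)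
        have := Equiv.Perm.viaEmbedding_apply π.1 (MulAction.toPerm g).toEmbedding (g⁻¹ * x)
        have e : (MulAction.toPerm g).toEmbedding (g⁻¹ * x) = x := by
          show g * (g⁻¹ * x) = x
          rw [mul_inv_cancel_left]
        rw [e] at this
        exact this)
    have hΦ : ∀ p : fsymHalo.{u}.Product G G, ∀ x, Φ p x = p.left.1 (p.right * x) := by
      intro p x
      rfl
    have hinj : Function.Injective Φ := by
      rw [injective_iff_map_eq_one]
      intro p hp
      have h1 : p.right = 1 := by
        -- `p.left` has finite support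
        obtain ⟨y, hy⟩ : ∃ y : G, y ∉ {x | p.left.1 x ≠ x} := by
          by_contra hc
          have : (Set.univ : Set G).Finite := p.left.2.subset fun x _ => by
            by_contra hx
            exact hc ⟨x, hx⟩
          exact hinf.not_finite (Set.finite_univ_iff.1 this)
        have h2 : p.left.1 y = y := not_not.1 hy
        have h3 := hΦ p (p.right⁻¹ * y)
        rw [hp, mul_inv_cancel_left, h2] at h3
        have h4 : p.right⁻¹ * y = y := h3
        have h5 : p.right⁻¹ = 1 := by simpa using h4
        exact inv_eq_one.1 h5
      refine SemidirectProduct.ext ?_ h1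
      apply Subtype.ext
      ext x
      have h2 := hΦ p x
      rw [hp, h1, one_mul] at h2
      exact h2.symm
    have hrange : Φ.range = nearTranslations G := by
      ext π
      constructor
      · rintro ⟨p, rfl⟩
        refine ⟨p.right, (p.left.2.preimage (f := fun x => p.right * x)
          (mul_right_injective p.right).injOn).subset fun x hx => ?_⟩
        intro h
        apply hx
        rw [hΦ]
        exact h
      · rintro ⟨g, hg⟩
        have hmem : π * (MulAction.toPermHom G G g)⁻¹ ∈ fsym G := by
          refine (hg.preimage (f := fun x => g⁻¹ * x)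
            (mul_right_injective g⁻¹).injOn).subset fun x hx => ?_
          intro h
          apply hx
          show π (g⁻¹ * x) = x
          rw [h, mul_inv_cancel_left]
        refine ⟨SemidirectProduct.mk (⟨π * (MulAction.toPermHom G G g)⁻¹, hmem⟩ : fsym G) g, ?_⟩
        ext x
        rw [hΦ]
        show π (g⁻¹ * (g * x)) = π x
        rw [inv_mul_cancel_left]
    have e : fsymHalo.{u}.Product G G ≃* Φ.range := MonoidHom.ofInjective hinj
    rw [← hrange]
    exact isSofic_of_injective e.symm.toMonoidHom e.symm.injective hP

end Pool.Agent.TH92.Halo
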