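import Pool.Agent.TH92.Halo.Sofic

/-!
Soficity of halo products: the main construction.
-/

namespace Pool.Agent.TH92.Halo

open Pool.Agent.H21R2 Finset

universe u v

theorem card_le_of_hamm {n : ℕ} (hn : 1 ≤ n) (σ τ : Equiv.Perm (Fin n)) (δ : ℝ)
    (h : hamm σ τ < δ) : ((univ.filter fun i => σ i ≠ τ i).card : ℝ) ≤ δ * n := by
  have hn0 : (0 : ℝ) < n := by exact_mod_cast hn
  unfold hamm at h
  rw [div_lt_iff₀ hn0] at h
  exact h.le

theorem le_card_of_hamm {n : ℕ} (hn : 1 ≤ n) (σ : Equiv.Perm (Fin n)) (δ : ℝ)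
    (h : 1 - δ ≤ hamm σ 1) : (1 - δ) * n ≤ ((univ.filter fun i => σ i ≠ i).card : ℝ) := by
  have hn0 : (0 : ℝ) < n := by exact_mod_cast hn
  unfold hamm at h
  rw [le_div_iff₀ hn0] at h
  exact h

theorem card_prod_eq {α β : Type*} [Fintype α] [Fintype β] (R : α → β → Prop)
    [∀ a b, Decidable (R a b)] :
    ((univ.filter fun p : α × β => R p.1 p.2).card : ℝ) =
      ∑ a : α, ((univ.filter fun b : β => R a b).card : ℝ) := by
  rw [← Nat.cast_sum, Nat.cast_inj]
  simp_rw [card_filter]
  rw [Fintype.sum_prod_type]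

/-- a map of finite sets given fibrewise by permutations over a permutation -/
def fibPerm {α β : Type*} (σ : Equiv.Perm α) (θ : α → Equiv.Perm β) : Equiv.Perm (α × β) where
  toFun p := (σ p.1, θ (σ p.1) p.2)
  invFun p := (σ.symm p.1, (θ p.1).symm p.2)
  left_inv p := by simp
  right_inv p := by simp

@[simp] theorem fibPerm_apply {α β : Type*} (σ : Equiv.Perm α) (θ : α → Equiv.Perm β)
    (p : α × β) : fibPerm σ θ p = (σ p.1, θ (σ p.1) p.2) := rfl

/-- the counting bound for compositions of fibred permutations -/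
theorem fib_error {α β : Type*} [Fintype α] [Fintype β] [DecidableEq α] [DecidableEq β]
    (σ₁ σ₂ σ₁₂ : Equiv.Perm α) (θ₁ θ₂ θ₁₂ : α → Equiv.Perm β) (Bad : Finset α) (δ₁ δ₂ : ℝ)
    (hδ₂ : 0 ≤ δ₂)
    (hBad : (Bad.card : ℝ) ≤ δ₁ * Fintype.card α)
    (hσ : ∀ s, s ∉ Bad → σ₁₂ s = σ₁ (σ₂ s))
    (hθ : ∀ s, s ∉ Bad → ((univ.filter fun c => θ₁₂ (σ₁ (σ₂ s)) c ≠
      θ₁ (σ₁ (σ₂ s)) (θ₂ (σ₂ s) c)).card : ℝ) ≤ δ₂ * Fintype.card β) :
    ((univ.filter fun p : α × β => fibPerm σ₁₂ θ₁₂ p ≠ fibPerm σ₁ θ₁ (fibPerm σ₂ θ₂ p)).card : ℝ)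
      ≤ (δ₁ + δ₂) * Fintype.card (α × β) := by
  classical
  have key := card_prod_eq (α := α) (β := β)
    (fun s c => fibPerm σ₁₂ θ₁₂ (s, c) ≠ fibPerm σ₁ θ₁ (fibPerm σ₂ θ₂ (s, c)))
  have e : (univ.filter fun p : α × β => fibPerm σ₁₂ θ₁₂ p ≠
      fibPerm σ₁ θ₁ (fibPerm σ₂ θ₂ p)) = (univ.filter fun p : α × β =>
        fibPerm σ₁₂ θ₁₂ (p.1, p.2) ≠ fibPerm σ₁ θ₁ (fibPerm σ₂ θ₂ (p.1, p.2))) := rfl
  rw [e, key]
  have hb : ∀ s : α, ((univ.filter fun c : β => fibPerm σ₁₂ θ₁₂ (s, c) ≠
      fibPerm σ₁ θ₁ (fibPerm σ₂ θ₂ (s, c))).card : ℝ) ≤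
      (if s ∈ Bad then (Fintype.card β : ℝ) else 0) + δ₂ * Fintype.card β := by
    intro s
    by_cases hs : s ∈ Bad
    · rw [if_pos hs]
      have : ((univ.filter fun c : β => fibPerm σ₁₂ θ₁₂ (s, c) ≠
        fibPerm σ₁ θ₁ (fibPerm σ₂ θ₂ (s, c))).card : ℝ) ≤ Fintype.card β := by
        exact_mod_cast card_le_univ _
      have : (0 : ℝ) ≤ δ₂ * Fintype.card β := by positivity
      linarith
    · rw [if_neg hs, zero_add]
      refine le_trans ?_ (hθ s hs)
      have : (univ.filter fun c : β => fibPerm σ₁₂ θ₁₂ (s, c) ≠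
        fibPerm σ₁ θ₁ (fibPerm σ₂ θ₂ (s, c))) ⊆ (univ.filter fun c => θ₁₂ (σ₁ (σ₂ s)) c ≠
          θ₁ (σ₁ (σ₂ s)) (θ₂ (σ₂ s) c)) := by
        intro c hc
        rw [mem_filter] at hc ⊢
        refine ⟨mem_univ _, fun h => hc.2 ?_⟩
        simp only [fibPerm_apply, hσ s hs, h]
      exact_mod_cast card_le_card this
  refine (sum_le_sum fun s _ => hb s).trans ?_
  rw [sum_add_distrib, ← sum_filter, sum_const, sum_const, nsmul_eq_mul, nsmul_eq_mul]
  have e2 : (univ.filter fun s => s ∈ Bad) = Bad := by ext s; simp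
  rw [e2, card_univ, Fintype.card_prod]
  push_cast
  have : (Bad.card : ℝ) * Fintype.card β ≤ δ₁ * Fintype.card α * Fintype.card β :=
    mul_le_mul_of_nonneg_right hBad (by positivity)
  nlinarith

variable (H : Halo.{u}) {G : Type v} [Group G] {X : Type u} [MulAction G X]

/-- **Halo products over sofic actions are sofic.** -/
theorem sofic_main (hG : IsSofic G) (hX : IsSoficAction G X)
    (hL : ∀ (F : Type u) [Finite F], IsSofic (H.L F)) : IsSofic (H.Product G X) := by
  classical
  apply isSofic_of_count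
  intro A h1A g₀ hg₀ hg₀1 ε hε
  set δ : ℝ := min (ε / 8) (1 / 8) with hδ
  have hδ0 : 0 < δ := by positivity
  have hδε : 8 * δ ≤ ε := by
    have := min_le_left (ε / 8) (1 / 8 : ℝ); linarith
  have hδ1 : δ ≤ 1 / 8 := min_le_right _ _
  choose F l' hF using fun a : H.Product G X => H.finitary a.left
  set FF : Finset X := A.biUnion F with hFF
  set P : Finset G := insert 1 (A.image fun a => a.right) with hP
  set E : Finset X := FF ∪ P.biUnion (fun g => FF.image (fun x => g • x)) with hE
  have hFE : FF ⊆ E := subset_union_left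
  have hgE : ∀ g ∈ P, ∀ x ∈ FF, g • x ∈ E := by
    intro g hg x hx
    rw [hE, mem_union]
    exact Or.inr (mem_biUnion.2 ⟨g, hg, mem_image_of_mem _ hx⟩)
  have hAP : ∀ a ∈ A, a.right ∈ P := fun a ha =>
    mem_insert_of_mem (mem_image_of_mem _ ha)
  have hAF : ∀ a ∈ A, ∃ l' : H.L {x // x ∈ FF},
      H.map (Function.Embedding.subtype _) l' = a.left := fun a ha =>
    exists_of_subset H (subset_biUnion_of_mem F ha) a.left ⟨l' a, hF a⟩
  have hAE : ∀ a ∈ A, ∃ l' : H.L {x // x ∈ E},
      H.map (Function.Embedding.subtype _) l' = a.left := fun a ha =>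
    exists_of_subset H hFE a.left (hAF a ha)
  obtain ⟨n, m, σ, S, π₀, hn, hσ1, hσ, hS, hπ, hππ⟩ := hX P E δ hδ0
  obtain ⟨n₂, hn₂, τ, hτ1, hτ, hτn⟩ := hG P (mem_insert_self _ _) δ hδ0
  let B : Type u := ULift.{u} (Fin m)
  let π : Fin n → X → B := fun s x => ULift.up (π₀ s x)
  have hπ' : ∀ s ∈ S, Set.InjOn (π s) E := by
    intro s hs x hx y hy hxy
    exact hπ s hs hx hy (ULift.up_injective hxy)
  set M : Finset (H.L B) := insert 1 ((univ ×ˢ A).image
    fun q : Fin n × H.Product G X => lam H E (π q.1) q.2.left) with hM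
  have hMmem : ∀ s, ∀ a ∈ A, lam H E (π s) a.left ∈ M := fun s a ha =>
    mem_insert_of_mem (mem_image_of_mem (fun q : Fin n × H.Product G X =>
      lam H E (π q.1) q.2.left) (show (s, a) ∈ univ ×ˢ A by simp [ha]))
  obtain ⟨k, hk, θ, hθ1, hθ, hθn⟩ := hL B M (mem_insert_self _ _) δ hδ0
  -- the permutations of `Fin n × (Fin n₂ × Fin k)`
  let Φ : H.Product G X → Equiv.Perm (Fin n × (Fin n₂ × Fin k)) := fun a =>
    fibPerm (σ a.right) (fun s => Equiv.prodCongr (τ a.right) (θ (lam H E (π s) a.left)))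
  have hn0 : (0 : ℝ) < n := by exact_mod_cast hn
  have hn20 : (0 : ℝ) < n₂ := by exact_mod_cast hn₂
  have hk0 : (0 : ℝ) < k := by exact_mod_cast hk
  have : Nonempty (Fin n) := ⟨⟨0, hn⟩⟩
  have : Nonempty (Fin n₂) := ⟨⟨0, hn₂⟩⟩
  have : Nonempty (Fin k) := ⟨⟨0, hk⟩⟩
  have hcardY : (Fintype.card (Fin n × (Fin n₂ × Fin k)) : ℝ) = n * (n₂ * k) := by
    simp [Fintype.card_prod]
  refine ⟨Fin n × (Fin n₂ × Fin k), inferInstance, inferInstance, Φ, inferInstance, ?_, ?_, ?_⟩
  · ext1 ⟨s, t, c⟩
    show (σ 1 s, (τ 1 t, θ (lam H E (π (σ 1 s)) (1 : H.L X)) c)) = (s, (t, c))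
    rw [hσ1, hτ1, lam_one, hθ1]
    rfl
  · -- many points are moved by `g₀`
    rw [hcardY]
    have key := card_prod_eq (α := Fin n) (β := Fin n₂ × Fin k)
      (fun s c => Φ g₀ (s, c) ≠ (s, c))
    have e : (univ.filter fun p : Fin n × (Fin n₂ × Fin k) => Φ g₀ p ≠ p) =
      (univ.filter fun p : Fin n × (Fin n₂ × Fin k) => Φ g₀ (p.1, p.2) ≠ (p.1, p.2)) := rfl
    rw [e, key]
    -- lower bound for each `s ∈ S`
    have hlow : ∀ s ∈ S, (1 - δ) * (n₂ * k) ≤
        ((univ.filter fun c : Fin n₂ × Fin k => Φ g₀ (s, c) ≠ (s, c)).card : ℝ) := by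
      intro s hs
      by_cases hg : g₀.right = 1
      · have hl : g₀.left ≠ 1 := by
          intro h
          apply hg₀1
          exact SemidirectProduct.ext h hg
        have hmove : ∀ t c, θ (lam H E (π s) g₀.left) c ≠ c → Φ g₀ (s, (t, c)) ≠ (s, (t, c)) := by
          intro t c hc h
          apply hc
          have h2 := congrArg (fun z : Fin n × (Fin n₂ × Fin k) => z.2.2) h
          have h3 : σ g₀.right s = s := by rw [hg, hσ1]; rfl
          simp only [Φ, fibPerm_apply, h3] at h2
          exact h2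
        obtain ⟨l0, hl0⟩ := hAE g₀ hg₀
        have hne : lam H E (π s) g₀.left ≠ 1 := by
          rw [← hl0]
          exact lam_ne_one H E (π s) (hπ' s hs) l0 (by rw [hl0]; exact hl)
        have h4 := le_card_of_hamm hk _ δ (hθn _ (hMmem s g₀ hg₀) hne)
        have h5 : (univ ×ˢ (univ.filter fun c => θ (lam H E (π s) g₀.left) c ≠ c) :
            Finset (Fin n₂ × Fin k)) ⊆
            (univ.filter fun c : Fin n₂ × Fin k => Φ g₀ (s, c) ≠ (s, c)) := by
          rintro ⟨t, c⟩ h
          rw [mem_product, mem_filter] at h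
          rw [mem_filter]
          exact ⟨mem_univ _, hmove t c h.2.2⟩
        have h6 := card_le_card h5
        rw [card_product, card_univ, Fintype.card_fin] at h6
        have h7 : (n₂ : ℝ) * ((univ.filter fun c => θ (lam H E (π s) g₀.left) c ≠ c).card : ℝ) ≤
          ((univ.filter fun c : Fin n₂ × Fin k => Φ g₀ (s, c) ≠ (s, c)).card : ℝ) := by
          exact_mod_cast h6
        nlinarith
      · have hmove : ∀ t c, τ g₀.right t ≠ t → Φ g₀ (s, (t, c)) ≠ (s, (t, c)) := by
          intro t c hc h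
          apply hc
          exact congrArg (fun z : Fin n × (Fin n₂ × Fin k) => z.2.1) h
        have h4 := le_card_of_hamm hn₂ _ δ (hτn _ (hAP g₀ hg₀) hg)
        have h5 : ((univ.filter fun t => τ g₀.right t ≠ t) ×ˢ univ :
            Finset (Fin n₂ × Fin k)) ⊆
            (univ.filter fun c : Fin n₂ × Fin k => Φ g₀ (s, c) ≠ (s, c)) := by
          rintro ⟨t, c⟩ h
          rw [mem_product, mem_filter] at h
          rw [mem_filter]
          exact ⟨mem_univ _, hmove t c h.1.2⟩
        have h6 := card_le_card h5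
        rw [card_product, card_univ, Fintype.card_fin] at h6
        have h7 : ((univ.filter fun t => τ g₀.right t ≠ t).card : ℝ) * k ≤
          ((univ.filter fun c : Fin n₂ × Fin k => Φ g₀ (s, c) ≠ (s, c)).card : ℝ) := by
          exact_mod_cast h6
        nlinarith
    have h1 : (S.card : ℝ) * ((1 - δ) * (n₂ * k)) ≤
        ∑ s : Fin n, ((univ.filter fun c : Fin n₂ × Fin k => Φ g₀ (s, c) ≠ (s, c)).card : ℝ) := by
      rw [← nsmul_eq_mul, ← sum_const]
      refine (sum_le_sum fun s hs => hlow s hs).trans ?_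
      exact sum_le_sum_of_subset_of_nonneg (subset_univ _) fun s _ _ => by positivity
    have h2 : (1 - δ) * n * ((1 - δ) * (n₂ * k)) ≤ (S.card : ℝ) * ((1 - δ) * (n₂ * k)) :=
      mul_le_mul_of_nonneg_right hS (mul_nonneg (by linarith) (by positivity))
    have h3 : (1 : ℝ) ≤ 2 * ((1 - δ) * (1 - δ)) := by nlinarith
    have h4 : (0 : ℝ) ≤ n * (n₂ * k) := by positivity
    nlinarith
  · -- the errors
    intro a ha b hb hab
    set Bad : Finset (Fin n) := (univ.filter fun s => σ (a.right * b.right) s ≠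
        (σ a.right * σ b.right) s) ∪ ((univ \ S).image (σ b.right).symm) ∪
        ((univ \ S).image (σ a.right * σ b.right).symm) with hBad
    have hSc : ((univ \ S : Finset (Fin n)).card : ℝ) ≤ δ * n := by
      rw [card_sdiff_of_subset (subset_univ _), card_univ, Fintype.card_fin,
        Nat.cast_sub (by simpa using card_le_univ S)]
      linarith
    have hBadc : (Bad.card : ℝ) ≤ (3 * δ) * Fintype.card (Fin n) := by
      have h1 := card_le_of_hamm hn _ _ δ (hσ a.right (hAP a ha) b.right (hAP b hb))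
      have h2 : (Bad.card : ℝ) ≤ ((univ.filter fun s => σ (a.right * b.right) s ≠
        (σ a.right * σ b.right) s).card : ℝ) + (((univ \ S).image (σ b.right).symm).card : ℝ) +
        (((univ \ S).image (σ a.right * σ b.right).symm).card : ℝ) := by
        have h3 := (card_union_le ((univ.filter fun s => σ (a.right * b.right) s ≠
          (σ a.right * σ b.right) s) ∪ ((univ \ S).image (σ b.right).symm))
          ((univ \ S).image (σ a.right * σ b.right).symm))
        have h4 := card_union_le (univ.filter fun s => σ (a.right * b.right) s ≠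
          (σ a.right * σ b.right) s) ((univ \ S).image (σ b.right).symm)
        have h5 := h3.trans (Nat.add_le_add_right h4 _)
        exact_mod_cast h5
      have h6 : (((univ \ S).image (σ b.right).symm).card : ℝ) ≤ ((univ \ S).card : ℝ) := by
        exact_mod_cast card_image_le
      have h7 : (((univ \ S).image (σ a.right * σ b.right).symm).card : ℝ) ≤
          ((univ \ S).card : ℝ) := by
        exact_mod_cast card_image_le
      rw [Fintype.card_fin]
      linarith
    have hgood : ∀ s, s ∉ Bad → σ (a.right * b.right) s = σ a.right (σ b.right s) ∧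
        σ b.right s ∈ S ∧ σ a.right (σ b.right s) ∈ S := by
      intro s hs
      rw [hBad, mem_union, mem_union, not_or, not_or] at hs
      obtain ⟨⟨h1, h2⟩, h3⟩ := hs
      refine ⟨?_, ?_, ?_⟩
      · by_contra h
        exact h1 (mem_filter.2 ⟨mem_univ _, h⟩)
      · by_contra h
        exact h2 (mem_image.2 ⟨σ b.right s, by simp [h], by simp⟩)
      · by_contra h
        exact h3 (mem_image.2 ⟨(σ a.right * σ b.right) s, by simpa using h,
          Equiv.symm_apply_apply _ _⟩)
    have herr := fib_error (σ a.right) (σ b.right) (σ (a * b).right)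
      (fun s => Equiv.prodCongr (τ a.right) (θ (lam H E (π s) a.left)))
      (fun s => Equiv.prodCongr (τ b.right) (θ (lam H E (π s) b.left)))
      (fun s => Equiv.prodCongr (τ (a * b).right) (θ (lam H E (π s) (a * b).left)))
      Bad (3 * δ) (2 * δ) (by positivity) hBadc (fun s hs => by
        rw [SemidirectProduct.mul_right]; exact (hgood s hs).1) ?_
    · refine le_trans herr ?_
      have : (0 : ℝ) ≤ Fintype.card (Fin n × (Fin n₂ × Fin k)) := by positivity
      nlinarith
    · intro s hs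
      obtain ⟨g1, g2, g3⟩ := hgood s hs
      set s₂ := σ b.right s with hs₂
      set s₁₂ := σ a.right s₂ with hs₁₂
      -- the transported lamps multiply
      have hact := lam_smul H FF E a.right hFE (hgE _ (hAP a ha)) (π s₂) (π s₁₂) (hπ' _ g2)
        (hπ' _ g3) (fun x hx => by
          show ULift.up (π₀ s₁₂ (a.right • x)) = ULift.up (π₀ s₂ x)
          rw [hs₁₂, hππ s₂ g2 a.right (hAP a ha) g3 x (hFE hx) (hgE _ (hAP a ha) x hx)])
        b.left (hAF b hb)
      have hmul : lam H E (π s₁₂) (a * b).left =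
          lam H E (π s₁₂) a.left * lam H E (π s₂) b.left := by
        rw [SemidirectProduct.mul_left, lam_mul H E _ _ _ (hAE a ha) hact.1, hact.2]
      have hMm : lam H E (π s₁₂) a.left * lam H E (π s₂) b.left ∈ M := by
        rw [← hmul]; exact hMmem _ _ hab
      have e1 := card_le_of_hamm hk _ _ δ (hθ _ (hMmem s₁₂ a ha) _ (hMmem s₂ b hb) hMm)
      have e2 := card_le_of_hamm hn₂ _ _ δ (hτ _ (hAP a ha) _ (hAP b hb)
        (by rw [← SemidirectProduct.mul_right]; exact hAP _ hab))
      have hsub : (univ.filter fun c : Fin n₂ × Fin k =>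
          (Equiv.prodCongr (τ (a * b).right) (θ (lam H E (π s₁₂) (a * b).left))) c ≠
          (Equiv.prodCongr (τ a.right) (θ (lam H E (π s₁₂) a.left)))
            ((Equiv.prodCongr (τ b.right) (θ (lam H E (π s₂) b.left))) c)) ⊆
          ((univ.filter fun t => τ (a.right * b.right) t ≠ (τ a.right * τ b.right) t) ×ˢ univ) ∪
          (univ ×ˢ (univ.filter fun c => θ (lam H E (π s₁₂) a.left * lam H E (π s₂) b.left) c ≠
            (θ (lam H E (π s₁₂) a.left) * θ (lam H E (π s₂) b.left)) c)) := by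
        rintro ⟨t, c⟩ h
        rw [mem_filter] at h
        rw [mem_union, mem_product, mem_product, mem_filter, mem_filter]
        by_contra hc
        rw [not_or] at hc
        apply h.2
        have c1 : τ (a.right * b.right) t = (τ a.right * τ b.right) t := by
          by_contra h'
          exact hc.1 ⟨⟨mem_univ _, h'⟩, mem_univ _⟩
        have c2 : θ (lam H E (π s₁₂) a.left * lam H E (π s₂) b.left) c =
            (θ (lam H E (π s₁₂) a.left) * θ (lam H E (π s₂) b.left)) c := by
          by_contra h'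
          exact hc.2 ⟨mem_univ _, ⟨mem_univ _, h'⟩⟩
        rw [hmul, SemidirectProduct.mul_right]
        show (τ (a.right * b.right) t, θ _ c) = (τ a.right (τ b.right t), _)
        rw [c1, c2]
        rfl
      have hc := (card_le_card hsub).trans (card_union_le _ _)
      rw [card_product, card_product, card_univ, card_univ, Fintype.card_fin,
        Fintype.card_fin] at hc
      have hc' : ((univ.filter fun c : Fin n₂ × Fin k =>
          (Equiv.prodCongr (τ (a * b).right) (θ (lam H E (π s₁₂) (a * b).left))) c ≠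
          (Equiv.prodCongr (τ a.right) (θ (lam H E (π s₁₂) a.left)))
            ((Equiv.prodCongr (τ b.right) (θ (lam H E (π s₂) b.left))) c)).card : ℝ) ≤
          ((univ.filter fun t => τ (a.right * b.right) t ≠ (τ a.right * τ b.right) t).card : ℝ) * k +
          n₂ * ((univ.filter fun c => θ (lam H E (π s₁₂) a.left * lam H E (π s₂) b.left) c ≠
            (θ (lam H E (π s₁₂) a.left) * θ (lam H E (π s₂) b.left)) c).card : ℝ) := by
        exact_mod_cast hc
      refine hc'.trans ?_
      rw [Fintype.card_prod, Fintype.card_fin, Fintype.card_fin, Nat.cast_mul]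
      have f1 := mul_le_mul_of_nonneg_right e2 hk0.le
      have f2 := mul_le_mul_of_nonneg_left e1 hn20.le
      nlinarith

end Pool.Agent.TH92.Halo
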