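import Pool.Agent.TH92.Halo.HyperMat
import Pool.Agent.TH92.Halo.SoficMain

/-!
Hyperlinearity of halo products.
-/

namespace Pool.Agent.TH92.Halo

open Pool.Agent.H21R2 Finset Matrix

universe u v

variable (H : Halo.{u}) {G : Type v} [Group G] {X : Type u} [MulAction G X]

/-- **Halo products over sofic actions are hyperlinear.** -/
theorem hyperlinear_main (hG : IsSofic G) (hX : IsSoficAction G X)
    (hL : ∀ (F : Type u) [Finite F], IsHyperlinear (H.L F)) :
    IsHyperlinear (H.Product G X) := by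
  classical
  apply hyperlinear_of_data
  intro A h1A g₀ hg₀ hg₀1 ε hε
  set δ : ℝ := min (ε / 34) (1 / 8) with hδ
  have hδ0 : 0 < δ := by positivity
  have hδε : 34 * δ ≤ ε := by
    have := min_le_left (ε / 34) (1 / 8 : ℝ); linarith
  have hδ1 : δ ≤ 1 / 8 := min_le_right _ _
  choose F l' hF using fun a : H.Product G X => H.finitary a.left
  set FF : Finset X := A.biUnion F with hFF
  set P : Finset G := insert 1 (A.image fun a => a.right) with hP
  set E : Finset X := FF ∪ P.biUnion (fun g => FF.image (fun x => g • x)) with hE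
  have hFE : FF ⊆ E := subset_union_left
  have hgE : ∀ g ∈ P, ∀ x ∈ FF, g • x ∈ E := by
    intro g hg x hx
    rw [hE, mem_union]
    exact Or.inr (mem_biUnion.2 ⟨g, hg, mem_image_of_mem _ hx⟩)
  have hAP : ∀ a ∈ A, a.right ∈ P := fun a ha =>
    mem_insert_of_mem (mem_image_of_mem _ ha)
  have hAF : ∀ a ∈ A, ∃ l' : H.L {x // x ∈ FF},
      H.map (Function.Embedding.subtype _) l' = a.left := fun a ha =>
    exists_of_subset H (subset_biUnion_of_mem F ha) a.left ⟨l' a, hF a⟩
  have hAE : ∀ a ∈ A, ∃ l' : H.L {x // x ∈ E},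
      H.map (Function.Embedding.subtype _) l' = a.left := fun a ha =>
    exists_of_subset H hFE a.left (hAF a ha)
  obtain ⟨n, m, σ, S, π₀, hn, hσ1, hσ, hS, hπ, hππ⟩ := hX P E δ hδ0
  obtain ⟨n₂, hn₂, τ, hτ1, hτ, hτn⟩ := hG P (mem_insert_self _ _) δ hδ0
  let B : Type u := ULift.{u} (Fin m)
  let π : Fin n → X → B := fun s x => ULift.up (π₀ s x)
  have hπ' : ∀ s ∈ S, Set.InjOn (π s) E := by
    intro s hs x hx y hy hxy
    exact hπ s hs hx hy (ULift.up_injective hxy)
  set M : Finset (H.L B) := insert 1 ((univ ×ˢ A).image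
    fun q : Fin n × H.Product G X => lam H E (π q.1) q.2.left) with hM
  have hMmem : ∀ s, ∀ a ∈ A, lam H E (π s) a.left ∈ M := fun s a ha =>
    mem_insert_of_mem (mem_image_of_mem (fun q : Fin n × H.Product G X =>
      lam H E (π q.1) q.2.left) (show (s, a) ∈ univ ×ˢ A by simp [ha]))
  obtain ⟨k, hk, θ, hθ1, hθ, hθn⟩ := hL B M (mem_insert_self _ _) δ hδ0
  have hn0 : (0 : ℝ) < n := by exact_mod_cast hn
  have hn20 : (0 : ℝ) < n₂ := by exact_mod_cast hn₂
  have hk0 : (0 : ℝ) < k := by exact_mod_cast hk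
  let ρ : H.Product G X → Equiv.Perm (Fin n × Fin n₂) := fun a =>
    Equiv.prodCongr (σ a.right) (τ a.right)
  let W : H.Product G X → Fin n × Fin n₂ → unitaryGroup (Fin k) ℂ := fun a p =>
    θ (lam H E (π p.1) a.left)
  have hsum : ∀ (c : ℝ) (Q : Finset (Fin n × Fin n₂)) (M : Matrix _ _ ℂ),
      (∀ p ∈ Q, c ≤ col (α := Fin n × Fin n₂) (β := Fin k) M p) → 0 ≤ c →
      (Q.card : ℝ) * c ≤ fro2 M := by
    intro c Q M h _
    rw [fro2_eq_col, ← nsmul_eq_mul, ← sum_const]
    refine (sum_le_sum h).trans (sum_le_sum_of_subset_of_nonneg (subset_univ _) fun p _ _ => ?_)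
    unfold col
    positivity
  -- the signal
  have hsig : (n * n₂ * k : ℝ) / 2 ≤ fro2 ((fibU (ρ g₀) (W g₀)).1 - 1) := by
    have e1 : ((fibU (ρ g₀) (W g₀)).1 - 1 : Matrix ((Fin n × Fin n₂) × Fin k) _ ℂ) =
        fibM (ρ g₀) (fun a => (W g₀ a).1) - fibM 1 (fun _ => 1) := by
      rw [fibM_one]; rfl
    rw [e1]
    by_cases hg : g₀.right = 1
    · have hl : g₀.left ≠ 1 := by
        intro h
        apply hg₀1
        exact SemidirectProduct.ext h hg
      have hρ : ∀ p, ρ g₀ p = p := by
        rintro ⟨s, t⟩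
        show (σ g₀.right s, τ g₀.right t) = (s, t)
        rw [hg, hσ1, hτ1]; rfl
      have h1 := hsum k (S ×ˢ univ) (fibM (ρ g₀) (fun a => (W g₀ a).1) - fibM 1 (fun _ => 1)) ?_
        hk0.le
      · rw [card_product, card_univ, Fintype.card_fin, Nat.cast_mul] at h1
        have h2 : (n : ℝ) * n₂ * k / 2 ≤ (1 - δ) * n * n₂ * k := by
          have : (0 : ℝ) ≤ n * n₂ * k := by positivity
          nlinarith
        have h3 : (1 - δ) * n * n₂ * k ≤ (S.card : ℝ) * n₂ * k :=
          mul_le_mul_of_nonneg_right (mul_le_mul_of_nonneg_right hS hn20.le) hk0.le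
        linarith
      · rintro ⟨s, t⟩ hp
        rw [mem_product] at hp
        rw [col_sub_of_eq _ _ _ _ _ (by rw [hρ]; rfl), hρ]
        apply le_fro2_of_hsNorm hk
        obtain ⟨l0, hl0⟩ := hAE g₀ hg₀
        apply hθn _ (hMmem s g₀ hg₀)
        rw [← hl0]
        exact lam_ne_one H E (π s) (hπ' s hp.1) l0 (by rw [hl0]; exact hl)
    · have h4 := le_card_of_hamm hn₂ _ δ (hτn _ (hAP g₀ hg₀) hg)
      have h1 := hsum k (univ ×ˢ (univ.filter fun t => τ g₀.right t ≠ t))
        (fibM (ρ g₀) (fun a => (W g₀ a).1) - fibM 1 (fun _ => 1)) ?_ hk0.le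
      · rw [card_product, card_univ, Fintype.card_fin, Nat.cast_mul] at h1
        have h2 : (n : ℝ) * n₂ * k / 2 ≤ n * ((1 - δ) * n₂) * k := by
          have : (0 : ℝ) ≤ n * n₂ * k := by positivity
          nlinarith
        have h3 : n * ((1 - δ) * n₂) * k ≤
            (n : ℝ) * ((univ.filter fun t => τ g₀.right t ≠ t).card : ℝ) * k :=
          mul_le_mul_of_nonneg_right (mul_le_mul_of_nonneg_left h4 hn0.le) hk0.le
        linarith
      · rintro ⟨s, t⟩ hp
        rw [mem_product, mem_filter] at hp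
        rw [col_sub_of_ne]
        · rw [fro2_unitary, Fintype.card_fin]
          have : 0 ≤ fro2 (1 : Matrix (Fin k) (Fin k) ℂ) := fro2_nonneg _
          linarith
        · intro h
          exact hp.2.2 (congrArg Prod.snd h)
  refine ⟨(Fin n × Fin n₂) × Fin k, inferInstance, inferInstance,
    fun a => fibU (ρ a) (W a), fun _ => 1, ?_, ?_, ?_, ?_⟩
  · apply Subtype.ext
    show fibM (ρ 1) (fun a => (W 1 a).1) = 1
    have e1 : ρ 1 = 1 := by
      ext1 ⟨s, t⟩
      show (σ 1 s, τ 1 t) = (s, t)
      rw [hσ1, hτ1]; rfl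
    have e2 : ∀ p, W 1 p = 1 := by
      intro p
      show θ (lam H E (π p.1) (1 : H.L X)) = 1
      rw [lam_one, hθ1]
    rw [e1, ← fibM_one]
    congr 1
    ext1 p
    rw [e2]; rfl
  · rw [N2_one]
    refine lt_of_lt_of_le ?_ hsig
    positivity
  · intro a _
    rw [E2_one, N2_one]
    exact mul_nonneg hε.le (fro2_nonneg _)
  · intro a ha b hb hab
    rw [N2_one, N2_one]
    refine le_trans ?_ (mul_le_mul_of_nonneg_left hsig hε.le)
    set BadS : Finset (Fin n) := (univ.filter fun s => σ (a.right * b.right) s ≠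
        (σ a.right * σ b.right) s) ∪ ((univ \ S).image (σ b.right).symm) ∪
        ((univ \ S).image (σ a.right * σ b.right).symm) with hBad
    have hSc : ((univ \ S : Finset (Fin n)).card : ℝ) ≤ δ * n := by
      rw [card_sdiff_of_subset (subset_univ _), card_univ, Fintype.card_fin,
        Nat.cast_sub (by simpa using card_le_univ S)]
      linarith
    have hBadc : (BadS.card : ℝ) ≤ (3 * δ) * n := by
      have h1 := card_le_of_hamm hn _ _ δ (hσ a.right (hAP a ha) b.right (hAP b hb))
      have h2 : (BadS.card : ℝ) ≤ ((univ.filter fun s => σ (a.right * b.right) s ≠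
        (σ a.right * σ b.right) s).card : ℝ) + (((univ \ S).image (σ b.right).symm).card : ℝ) +
        (((univ \ S).image (σ a.right * σ b.right).symm).card : ℝ) := by
        have h3 := (card_union_le ((univ.filter fun s => σ (a.right * b.right) s ≠
          (σ a.right * σ b.right) s) ∪ ((univ \ S).image (σ b.right).symm))
          ((univ \ S).image (σ a.right * σ b.right).symm))
        have h4 := card_union_le (univ.filter fun s => σ (a.right * b.right) s ≠
          (σ a.right * σ b.right) s) ((univ \ S).image (σ b.right).symm)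
        have h5 := h3.trans (Nat.add_le_add_right h4 _)
        exact_mod_cast h5
      have h6 : (((univ \ S).image (σ b.right).symm).card : ℝ) ≤ ((univ \ S).card : ℝ) := by
        exact_mod_cast card_image_le
      have h7 : (((univ \ S).image (σ a.right * σ b.right).symm).card : ℝ) ≤
          ((univ \ S).card : ℝ) := by
        exact_mod_cast card_image_le
      linarith
    have hgood : ∀ s, s ∉ BadS → σ (a.right * b.right) s = σ a.right (σ b.right s) ∧
        σ b.right s ∈ S ∧ σ a.right (σ b.right s) ∈ S := by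
      intro s hs
      rw [hBad, mem_union, mem_union, not_or, not_or] at hs
      obtain ⟨⟨h1, h2⟩, h3⟩ := hs
      refine ⟨?_, ?_, ?_⟩
      · by_contra h
        exact h1 (mem_filter.2 ⟨mem_univ _, h⟩)
      · by_contra h
        exact h2 (mem_image.2 ⟨σ b.right s, by simp [h], by simp⟩)
      · by_contra h
        exact h3 (mem_image.2 ⟨(σ a.right * σ b.right) s, by simpa using h,
          Equiv.symm_apply_apply _ _⟩)
    set BadT : Finset (Fin n₂) := univ.filter fun t => τ (a.right * b.right) t ≠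
      (τ a.right * τ b.right) t with hBadT
    have hBadTc : (BadT.card : ℝ) ≤ δ * n₂ := card_le_of_hamm hn₂ _ _ δ (hτ _ (hAP a ha) _
      (hAP b hb) (by rw [← SemidirectProduct.mul_right]; exact hAP _ hab))
    set Bad : Finset (Fin n × Fin n₂) := BadS ×ˢ univ ∪ univ ×ˢ BadT with hBadd
    have hBaddc : (Bad.card : ℝ) ≤ 4 * δ * (n * n₂) := by
      have h1 := card_union_le (BadS ×ˢ (univ : Finset (Fin n₂))) ((univ : Finset (Fin n)) ×ˢ BadT)
      rw [card_product, card_product, card_univ, card_univ, Fintype.card_fin,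
        Fintype.card_fin] at h1
      have h2 : (Bad.card : ℝ) ≤ BadS.card * n₂ + n * BadT.card := by exact_mod_cast h1
      nlinarith
    have hfib : ((fibU (ρ (a * b)) (W (a * b))).1 - (fibU (ρ a) (W a)).1 * (fibU (ρ b) (W b)).1 :
      Matrix ((Fin n × Fin n₂) × Fin k) _ ℂ) = fibM (ρ (a * b)) (fun p => (W (a * b) p).1) -
        fibM (ρ a * ρ b) (fun p => (W a p).1 * (W b ((ρ a).symm p)).1) := by
      congr 1
      exact fibM_mul (ρ a) (ρ b) (fun p => (W a p).1) (fun p => (W b p).1)
    rw [hfib, fro2_eq_col]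
    have hcol : ∀ p, col (fibM (ρ (a * b)) (fun p => (W (a * b) p).1) -
        fibM (ρ a * ρ b) (fun p => (W a p).1 * (W b ((ρ a).symm p)).1)) p ≤
        (if p ∈ Bad then 4 * (k : ℝ) else 0) + δ ^ 2 * k := by
      intro p
      have hδk : (0 : ℝ) ≤ δ ^ 2 * k := by positivity
      by_cases hp : p ∈ Bad
      · rw [if_pos hp]
        by_cases hpp : ρ (a * b) p = (ρ a * ρ b) p
        · rw [col_sub_of_eq _ _ _ _ _ hpp]
          have h1 := fro2_add_le 1 one_pos (W (a * b) (ρ (a * b) p)).1
            (-((W a (ρ (a * b) p)).1 * (W b ((ρ a).symm (ρ (a * b) p))).1))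
          rw [← sub_eq_add_neg, fro2_neg, fro2_unitary_mul, fro2_unitary, fro2_unitary,
            Fintype.card_fin] at h1
          linarith
        · rw [col_sub_of_ne _ _ _ _ _ hpp]
          rw [fro2_unitary_mul, fro2_unitary, fro2_unitary, Fintype.card_fin]
          linarith
      · rw [if_neg hp, zero_add]
        obtain ⟨s, t⟩ := p
        rw [hBadd, mem_union, not_or, mem_product, mem_product] at hp
        have hs : s ∉ BadS := fun h => hp.1 ⟨h, mem_univ _⟩
        have ht : t ∉ BadT := fun h => hp.2 ⟨mem_univ _, h⟩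
        obtain ⟨g1, g2, g3⟩ := hgood s hs
        have ht' : τ (a.right * b.right) t = τ a.right (τ b.right t) := by
          by_contra h
          exact ht (mem_filter.2 ⟨mem_univ _, h⟩)
        have hpp : ρ (a * b) (s, t) = (ρ a * ρ b) (s, t) := by
          show (σ (a * b).right s, τ (a * b).right t) =
            (σ a.right (σ b.right s), τ a.right (τ b.right t))
          rw [SemidirectProduct.mul_right, g1, ht']
        rw [col_sub_of_eq _ _ _ _ _ hpp, hpp]
        set s₂ := σ b.right s with hs₂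
        set s₁₂ := σ a.right s₂ with hs₁₂
        have hact := lam_smul H FF E a.right hFE (hgE _ (hAP a ha)) (π s₂) (π s₁₂) (hπ' _ g2)
          (hπ' _ g3) (fun x hx => by
            show ULift.up (π₀ s₁₂ (a.right • x)) = ULift.up (π₀ s₂ x)
            rw [hs₁₂, hππ s₂ g2 a.right (hAP a ha) g3 x (hFE hx) (hgE _ (hAP a ha) x hx)])
          b.left (hAF b hb)
        have hmul : lam H E (π s₁₂) (a * b).left =
            lam H E (π s₁₂) a.left * lam H E (π s₂) b.left := by
          rw [SemidirectProduct.mul_left, lam_mul H E _ _ _ (hAE a ha) hact.1, hact.2]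
        have hMm : lam H E (π s₁₂) a.left * lam H E (π s₂) b.left ∈ M := by
          rw [← hmul]; exact hMmem _ _ hab
        have e1 := fro2_le_of_hsNorm hk _ δ (hθ _ (hMmem s₁₂ a ha) _ (hMmem s₂ b hb) hMm)
        have e2 : (ρ a * ρ b) (s, t) = (s₁₂, τ a.right (τ b.right t)) := rfl
        have e3 : (ρ a).symm ((ρ a * ρ b) (s, t)) = (s₂, τ b.right t) := by
          rw [Equiv.symm_apply_eq]; rfl
        rw [e3, e2]
        show fro2 ((θ (lam H E (π s₁₂) (a * b).left)).1 - (θ (lam H E (π s₁₂) a.left)).1 *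
          (θ (lam H E (π s₂) b.left)).1) ≤ _
        rw [hmul]
        exact e1
    refine (sum_le_sum fun p _ => hcol p).trans ?_
    rw [sum_add_distrib, ← sum_filter, sum_const, sum_const, nsmul_eq_mul, nsmul_eq_mul]
    have e2 : (univ.filter fun s => s ∈ Bad) = Bad := by ext s; simp
    rw [e2, card_univ, Fintype.card_prod, Fintype.card_fin, Fintype.card_fin, Nat.cast_mul]
    have h1 : (Bad.card : ℝ) * (4 * k) ≤ 4 * δ * (n * n₂) * (4 * k) :=
      mul_le_mul_of_nonneg_right hBaddc (by positivity)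
    have h2 : δ ^ 2 ≤ δ := by nlinarith
    have h3 : (0 : ℝ) ≤ n * n₂ * k := by positivity
    have h4 : δ ^ 2 * (n * n₂ * k) ≤ δ * (n * n₂ * k) := mul_le_mul_of_nonneg_right h2 h3
    have h5 : 34 * δ * (n * n₂ * k) ≤ ε * (n * n₂ * k) := mul_le_mul_of_nonneg_right hδε h3
    nlinarith

end Pool.Agent.TH92.Halo
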