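import Pool.Agent.H21R2.HCrit

/-!
Fibred unitary matrices over permutations.
-/

namespace Pool.Agent.TH92.Halo

open Pool.Agent.H21R2 Finset Matrix
open scoped ComplexOrder

variable {α β : Type*} [Fintype α] [Fintype β] [DecidableEq α] [DecidableEq β]

/-- the matrix which permutes the blocks by `σ` and applies `W a` in the block `a` -/
def fibM (σ : Equiv.Perm α) (W : α → Matrix β β ℂ) : Matrix (α × β) (α × β) ℂ :=
  fun p q => if p.1 = σ q.1 then W p.1 p.2 q.2 else 0

theorem fibM_mul (σ₁ σ₂ : Equiv.Perm α) (W₁ W₂ : α → Matrix β β ℂ) :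
    fibM σ₁ W₁ * fibM σ₂ W₂ = fibM (σ₁ * σ₂) (fun a => W₁ a * W₂ (σ₁.symm a)) := by
  ext ⟨a, c⟩ ⟨a', c'⟩
  rw [mul_apply, Fintype.sum_prod_type]
  simp only [fibM]
  rw [Finset.sum_eq_single (σ₁.symm a)]
  · by_cases h : a = (σ₁ * σ₂) a'
    · rw [if_pos h, mul_apply]
      refine sum_congr rfl fun b _ => ?_
      have h1 : σ₁.symm a = σ₂ a' := by rw [h]; simp
      rw [if_pos (by simp), if_pos h1]
    · rw [if_neg h]
      refine sum_eq_zero fun b _ => ?_
      rw [if_neg (c := σ₁.symm a = σ₂ a'), mul_zero]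
      intro h1
      apply h
      rw [Equiv.symm_apply_eq] at h1
      exact h1
  · intro b _ hb
    refine sum_eq_zero fun x _ => ?_
    rw [if_neg, zero_mul]
    intro h
    apply hb
    rw [h]; simp
  · intro h; exact absurd (mem_univ _) h

theorem fibM_conjTranspose (σ : Equiv.Perm α) (W : α → Matrix β β ℂ) :
    (fibM σ W)ᴴ = fibM σ.symm (fun a => (W (σ a))ᴴ) := by
  ext ⟨a, c⟩ ⟨a', c'⟩
  rw [conjTranspose_apply]
  simp only [fibM]
  by_cases h : a' = σ a
  · have h' : a = σ.symm a' := by rw [h]; simp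
    rw [if_pos h, if_pos h', conjTranspose_apply, h]
  · have h' : ¬ a = σ.symm a' := by
      intro h1; apply h; rw [h1]; simp
    rw [if_neg h, if_neg h', star_zero]

theorem fibM_one : fibM (1 : Equiv.Perm α) (fun _ => (1 : Matrix β β ℂ)) = 1 := by
  ext ⟨a, c⟩ ⟨a', c'⟩
  simp only [fibM, Equiv.Perm.coe_one, id_eq, one_apply, Prod.mk.injEq]
  by_cases h1 : a = a' <;> by_cases h2 : c = c' <;> simp [h1, h2]

/-- the fibred unitary -/
def fibU (σ : Equiv.Perm α) (W : α → unitaryGroup β ℂ) : unitaryGroup (α × β) ℂ :=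
  ⟨fibM σ (fun a => (W a).1), by
    rw [mem_unitaryGroup_iff']
    show (fibM σ (fun a => (W a).1))ᴴ * fibM σ (fun a => (W a).1) = 1
    rw [fibM_conjTranspose, fibM_mul, ← fibM_one]
    congr 1
    · ext a; simp
    · ext1 a
      rw [Equiv.symm_symm]
      exact UnitaryGroup.star_mul_self (W (σ a))⟩

/-- squared norm of a block column -/
noncomputable def col (M : Matrix (α × β) (α × β) ℂ) (a : α) : ℝ :=
  ∑ p, ∑ c, ‖M p (a, c)‖ ^ 2

omit [DecidableEq α] [DecidableEq β] in
theorem fro2_eq_col (M : Matrix (α × β) (α × β) ℂ) : fro2 M = ∑ a, col M a := by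
  unfold fro2 col
  rw [sum_comm (s := (univ : Finset α))]
  refine sum_congr rfl fun p _ => ?_
  rw [Fintype.sum_prod_type]

omit [DecidableEq β] in
theorem col_sub_of_eq (σ τ : Equiv.Perm α) (W V : α → Matrix β β ℂ) (a : α) (h : σ a = τ a) :
    col (fibM σ W - fibM τ V) a = fro2 (W (σ a) - V (σ a)) := by
  unfold col fro2
  rw [Fintype.sum_prod_type, sum_eq_single (σ a)]
  · refine sum_congr rfl fun c _ => sum_congr rfl fun c' _ => ?_
    rw [Matrix.sub_apply, Matrix.sub_apply]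
    simp only [fibM, h, if_true]
  · intro b _ hb
    refine sum_eq_zero fun c _ => sum_eq_zero fun c' _ => ?_
    rw [Matrix.sub_apply]
    simp only [fibM]
    rw [if_neg hb, if_neg (by rw [← h]; exact hb)]
    simp
  · intro h; exact absurd (mem_univ _) h

omit [DecidableEq β] in
theorem col_sub_of_ne (σ τ : Equiv.Perm α) (W V : α → Matrix β β ℂ) (a : α) (h : σ a ≠ τ a) :
    col (fibM σ W - fibM τ V) a = fro2 (W (σ a)) + fro2 (V (τ a)) := by
  unfold col fro2
  rw [Fintype.sum_prod_type]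
  have key : ∀ b : α, (∑ c : β, ∑ c' : β, ‖(fibM σ W - fibM τ V) (b, c) (a, c')‖ ^ 2) =
      (if b = σ a then ∑ c : β, ∑ c' : β, ‖W (σ a) c c'‖ ^ 2 else 0) +
      (if b = τ a then ∑ c : β, ∑ c' : β, ‖V (τ a) c c'‖ ^ 2 else 0) := by
    intro b
    by_cases h1 : b = σ a
    · have h2 : ¬ b = τ a := by rw [h1]; exact h
      rw [if_pos h1, if_neg h2, add_zero]
      refine sum_congr rfl fun c _ => sum_congr rfl fun c' _ => ?_
      rw [Matrix.sub_apply]
      simp only [fibM]
      rw [if_pos h1, if_neg h2, sub_zero, h1]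
    · rw [if_neg h1, zero_add]
      by_cases h2 : b = τ a
      · rw [if_pos h2]
        refine sum_congr rfl fun c _ => sum_congr rfl fun c' _ => ?_
        rw [Matrix.sub_apply]
        simp only [fibM]
        rw [if_neg h1, if_pos h2, zero_sub, norm_neg, h2]
      · rw [if_neg h2]
        refine sum_eq_zero fun c _ => sum_eq_zero fun c' _ => ?_
        rw [Matrix.sub_apply]
        simp only [fibM]
        rw [if_neg h1, if_neg h2]
        simp
  rw [sum_congr rfl fun b _ => key b, sum_add_distrib, sum_ite_eq' univ (σ a),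
    sum_ite_eq' univ (τ a)]
  simp

omit [DecidableEq α] in
theorem fro2_unitary (U : unitaryGroup β ℂ) : fro2 U.1 = Fintype.card β := by
  have h : (fro2 U.1 : ℂ) = Fintype.card β := by
    rw [fro2_eq_trace]
    have h1 : U.1ᴴ * U.1 = 1 := UnitaryGroup.star_mul_self U
    rw [h1, trace_one]
  exact_mod_cast h

theorem fro2_le_of_hsNorm {n : ℕ} (hn : 1 ≤ n) (X : Matrix (Fin n) (Fin n) ℂ) (δ : ℝ)
    (h : hsNorm X < δ) : fro2 X ≤ δ ^ 2 * n := by
  have hn0 : (0 : ℝ) < n := by exact_mod_cast hn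
  have hδ0 : 0 < δ := by
    refine lt_of_le_of_lt ?_ h
    rw [hsNorm_eq]; exact Real.sqrt_nonneg _
  rw [hsNorm_eq, Real.sqrt_lt' hδ0, div_lt_iff₀ hn0] at h
  exact h.le

theorem le_fro2_of_hsNorm {n : ℕ} (hn : 1 ≤ n) (X : Matrix (Fin n) (Fin n) ℂ)
    (h : 1 ≤ hsNorm X) : (n : ℝ) ≤ fro2 X := by
  have hn0 : (0 : ℝ) < n := by exact_mod_cast hn
  rw [hsNorm_eq, Real.one_le_sqrt, le_div_iff₀ hn0, one_mul] at h
  exact h

theorem N2_one {X : Type*} [Fintype X] [DecidableEq X] (K : Matrix X X ℂ) :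
    N2 K (fun _ => 1) = fro2 K := by
  simp [N2, wN, fro2]

theorem E2_one {X : Type*} [Fintype X] [DecidableEq X] (K : Matrix X X ℂ) :
    E2 K (fun _ => 1) = 0 := by
  simp [E2]

end Pool.Agent.TH92.Halo
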