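import Pool.Agent.TH92.Halo.Defs
import Pool.Agent.H21R2.Criterion

/-!
Soficity of halo products.
-/

namespace Pool.Agent.TH92.Halo

open Pool.Agent.H21R2 Finset

universe u v

/-- uniform weights in the weighted criterion -/
theorem isSofic_of_count {G : Type*} [Group G]
    (h : ∀ A : Finset G, (1 : G) ∈ A → ∀ g ∈ A, g ≠ 1 → ∀ ε : ℝ, 0 < ε →
      ∃ (Y : Type) (_ : Fintype Y) (_ : DecidableEq Y) (φ : G → Equiv.Perm Y),
        Nonempty Y ∧ φ 1 = 1 ∧
        (Fintype.card Y : ℝ) ≤ 2 * ((univ.filter fun y => φ g y ≠ y).card : ℝ) ∧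
        ∀ a ∈ A, ∀ b ∈ A, a * b ∈ A →
          ((univ.filter fun y => φ (a * b) y ≠ φ a (φ b y)).card : ℝ) ≤ ε * Fintype.card Y) :
    IsSofic G := by
  classical
  apply isSofic_of_weighted.{0}
  intro A h1 g hg hg1 ε hε
  obtain ⟨Y, _, _, φ, hY, p1, p2, p3⟩ := h A h1 g hg hg1 (ε / 2) (by positivity)
  let f : Y →₀ ℝ := Finsupp.onFinset univ (fun _ => 1) (fun _ _ => mem_univ _)
  have hf : ∀ y, f y = 1 := fun y => rfl
  have hm : ∀ P : Y → Prop, ∀ [DecidablePred P], mass f P = ((univ.filter P).card : ℝ) := by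
    intro P _
    rw [mass_eq_sum f P univ (subset_univ _)]
    simp [hf]
  have hpos : (0 : ℝ) < Fintype.card Y := by
    exact_mod_cast Fintype.card_pos
  refine ⟨Y, φ, f, p1, ?_, ?_, ?_⟩
  · rw [hm]; linarith
  · intro a _
    have : energy f (φ a) = 0 := by
      unfold energy; simp [hf]
    rw [this, hm]
    positivity
  · intro a ha b hb hab
    rw [hm, hm]
    refine (p3 a ha b hb hab).trans ?_
    nlinarith

variable (H : Halo.{u}) {G : Type v} [Group G] {X : Type u} [MulAction G X]

/-- the embedding of a finite subset given by a map which is injective on it -/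
noncomputable def embOn {X : Type u} {B : Type u} (E : Finset X) (π : X → B)
    (h : Set.InjOn π E) : {x // x ∈ E} ↪ B where
  toFun x := π x
  inj' := fun x y hxy => Subtype.ext (h x.2 y.2 hxy)

open Classical in
/-- transport of an element of `L X` along a map which is injective on the finite set `E`; it is
`1` if the element does not come from `E` -/
noncomputable def lam {B : Type u} (E : Finset X) (π : X → B) (l : H.L X) : H.L B :=
  if h : Set.InjOn π E ∧ ∃ l' : H.L {x // x ∈ E}, H.map (Function.Embedding.subtype _) l' = l then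
    H.map (embOn E π h.1) h.2.choose
  else 1

theorem lam_eq {B : Type u} (E : Finset X) (π : X → B) (hπ : Set.InjOn π E)
    (l' : H.L {x // x ∈ E}) :
    lam H E π (H.map (Function.Embedding.subtype _) l') = H.map (embOn E π hπ) l' := by
  unfold lam
  have h : Set.InjOn π E ∧ ∃ l'' : H.L {x // x ∈ E},
      H.map (Function.Embedding.subtype _) l'' = H.map (Function.Embedding.subtype _) l' :=
    ⟨hπ, l', rfl⟩
  rw [dif_pos h]
  congr 1
  exact H.map_injective _ h.2.choose_spec

theorem lam_one {B : Type u} (E : Finset X) (π : X → B) : lam H E π (1 : H.L X) = 1 := by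
  by_cases hπ : Set.InjOn π E
  · have := lam_eq H E π hπ 1
    simpa using this
  · unfold lam
    rw [dif_neg (fun h => hπ h.1)]

theorem lam_ne_one {B : Type u} (E : Finset X) (π : X → B) (hπ : Set.InjOn π E)
    (l' : H.L {x // x ∈ E}) (h : H.map (Function.Embedding.subtype fun x => x ∈ E) l' ≠ 1) :
    lam H E π (H.map (Function.Embedding.subtype _) l') ≠ 1 := by
  rw [lam_eq H E π hπ]
  intro h1
  apply h
  have : l' = 1 := H.map_injective _ (by rw [h1, map_one])
  rw [this, map_one]

/-- elements coming from a finite subset come from every larger one -/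
theorem exists_of_subset {F E : Finset X} (hFE : F ⊆ E) (l : H.L X)
    (h : ∃ l' : H.L {x // x ∈ F}, H.map (Function.Embedding.subtype _) l' = l) :
    ∃ l' : H.L {x // x ∈ E}, H.map (Function.Embedding.subtype _) l' = l := by
  obtain ⟨l', rfl⟩ := h
  refine ⟨H.map ⟨fun x => ⟨x.1, hFE x.2⟩, fun x y hxy => ?_⟩ l', ?_⟩
  · exact Subtype.ext (congrArg (fun z => z.1) hxy)
  · rw [← H.map_trans]
    rfl

theorem lam_mul {B : Type u} (E : Finset X) (π : X → B) (l₁ l₂ : H.L X)
    (h₁ : ∃ l' : H.L {x // x ∈ E}, H.map (Function.Embedding.subtype _) l' = l₁)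
    (h₂ : ∃ l' : H.L {x // x ∈ E}, H.map (Function.Embedding.subtype _) l' = l₂) :
    lam H E π (l₁ * l₂) = lam H E π l₁ * lam H E π l₂ := by
  obtain ⟨a, rfl⟩ := h₁
  obtain ⟨b, rfl⟩ := h₂
  by_cases hπ : Set.InjOn π E
  · rw [← map_mul, lam_eq H E π hπ, lam_eq H E π hπ, lam_eq H E π hπ, map_mul]
  · unfold lam
    rw [dif_neg (fun h => hπ h.1), dif_neg (fun h => hπ h.1), dif_neg (fun h => hπ h.1), one_mul]

/-- equivariance of the transport -/
theorem lam_smul {B : Type u} (F E : Finset X) (g : G) (hFE : F ⊆ E) (hgF : ∀ x ∈ F, g • x ∈ E)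
    (π π' : X → B) (hπ : Set.InjOn π E) (hπ' : Set.InjOn π' E)
    (hππ : ∀ x ∈ F, π' (g • x) = π x) (l : H.L X)
    (h : ∃ l' : H.L {x // x ∈ F}, H.map (Function.Embedding.subtype _) l' = l) :
    (∃ l' : H.L {x // x ∈ E}, H.map (Function.Embedding.subtype _) l' = H.act G X g l) ∧
    lam H E π' (H.act G X g l) = lam H E π l := by
  obtain ⟨l', rfl⟩ := h
  let i : {x // x ∈ F} ↪ {x // x ∈ E} :=
    ⟨fun x => ⟨x.1, hFE x.2⟩, fun x y hxy => Subtype.ext (congrArg (fun z => z.1) hxy)⟩
  let j : {x // x ∈ F} ↪ {x // x ∈ E} :=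
    ⟨fun x => ⟨g • x.1, hgF x.1 x.2⟩, fun x y hxy => Subtype.ext
      (MulAction.injective g (congrArg (fun z => z.1) hxy))⟩
  have e1 : H.map (Function.Embedding.subtype fun x => x ∈ F) l' =
      H.map (Function.Embedding.subtype fun x => x ∈ E) (H.map i l') := by
    rw [← H.map_trans]; rfl
  have e2 : H.act G X g (H.map (Function.Embedding.subtype fun x => x ∈ F) l') =
      H.map (Function.Embedding.subtype fun x => x ∈ E) (H.map j l') := by
    rw [← H.map_trans]
    show H.map _ (H.map _ l') = _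
    rw [← H.map_trans]
    rfl
  refine ⟨⟨_, e2.symm⟩, ?_⟩
  rw [e2, e1, lam_eq H E π' hπ', lam_eq H E π hπ, ← H.map_trans, ← H.map_trans]
  congr 2
  ext x
  exact hππ x.1 x.2

end Pool.Agent.TH92.Halo
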